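import Mathlib
import Pool.Agent.TH143.Conv
import Pool.Agent.W603.BP.PS

set_option autoImplicit false

/-! # Sums of zero free functions near a puncture: one parameter groups -/

namespace Pool.Agent.R849.UP

open Filter Metric Set Topology MvPolynomial Pool.Agent.W603.BP

variable {R : ℕ}

/-- a linear form which vanishes on a saturated subgroup, and not at finitely many given vectors
outside the subgroup -/
theorem exists_sep (Λ : AddSubgroup (Fin R → ℤ))
    (hsat : ∀ (M : ℕ) (γ : Fin R → ℤ), 0 < M → M • γ ∈ Λ → γ ∈ Λ) (I : Finset (Fin R → ℤ))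
    (hI : ∀ p ∈ I, p ∉ Λ) :
    ∃ b : Fin R → ℤ, (∀ γ ∈ Λ, ∑ j, γ j * b j = 0) ∧ ∀ p ∈ I, ∑ j, p j * b j ≠ 0 := by
  classical
  induction I using Finset.induction_on with
  | empty => exact ⟨0, fun γ _ => by simp, fun p hp => absurd hp (Finset.notMem_empty p)⟩
  | @insert p0 I _ ih =>
    obtain ⟨b, hb1, hb2⟩ := ih fun p hp => hI p (Finset.mem_insert_of_mem hp)
    by_cases h0 : ∑ j, p0 j * b j = 0
    · obtain ⟨b', hb1', hb2'⟩ := exists_form Λ hsat p0 (hI p0 (Finset.mem_insert_self _ _))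
      -- a large multiple of `b` plus `b'`
      obtain ⟨M, hM⟩ : ∃ M : ℤ, ∀ p ∈ I, |∑ j, p j * b' j| < M := by
        refine ⟨∑ p ∈ I, |∑ j, p j * b' j| + 1, fun p hp => ?_⟩
        have := Finset.single_le_sum (f := fun p : Fin R → ℤ => |∑ j, p j * b' j|)
          (fun _ _ => abs_nonneg _) hp
        have h2 : |∑ j, p j * b' j| ≤ ∑ p ∈ I, |∑ j, p j * b' j| := this
        omega
      have hlin : ∀ p : Fin R → ℤ, ∑ j, p j * (M * b j + b' j) =
          M * ∑ j, p j * b j + ∑ j, p j * b' j := by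
        intro p
        rw [Finset.mul_sum, ← Finset.sum_add_distrib]
        exact Finset.sum_congr rfl fun j _ => by ring
      refine ⟨fun j => M * b j + b' j, fun γ hγ => ?_, fun p hp => ?_⟩
      · rw [hlin, hb1 γ hγ, hb1' γ hγ, mul_zero, add_zero]
      · rw [hlin]
        rcases Finset.mem_insert.1 hp with rfl | hp
        · rw [h0, mul_zero, zero_add]
          exact hb2'
        · intro h
          have h1 := hM p hp
          have h2 : M ≤ |M * ∑ j, p j * b j| := by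
            rw [abs_mul]
            have h3 : 1 ≤ |∑ j, p j * b j| := Int.one_le_abs (hb2 p hp)
            have h4 : M ≤ |M| := le_abs_self M
            have h5 : 0 ≤ |M| := abs_nonneg M
            nlinarith
          have h3 : M * ∑ j, p j * b j = -∑ j, p j * b' j := by linarith
          rw [h3, abs_neg] at h2
          omega
    · refine ⟨b, hb1, fun p hp => ?_⟩
      rcases Finset.mem_insert.1 hp with rfl | hp
      · exact h0
      · exact hb2 p hp

/-- the parts of a relation between zero free functions with meromorphic coefficients -/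
theorem key (u : Fin R → ℂ → ℂ) (hu : ∀ j, Pun (u j))
    (hu0 : ∀ j, ∀ᶠ w in 𝓝[≠] (0 : ℂ), u j w ≠ 0) (b : Fin R → ℤ)
    (hb : ∀ γ ∈ Mon u, ∑ j, γ j * b j = 0) (A : Finset (Fin R →₀ ℕ))
    (c : (Fin R →₀ ℕ) → ℂ → ℂ) (hc : ∀ m, MeromorphicAt (c m) 0)
    (h : ∀ᶠ w in 𝓝[≠] (0 : ℂ), ∑ m ∈ A, c m w * ∏ j, u j w ^ m j = 0) (v : ℤ) :
    ∀ᶠ w in 𝓝[≠] (0 : ℂ), ∑ m ∈ A.filter (fun m => ∑ j, (m j : ℤ) * b j = v),
      c m w * ∏ j, u j w ^ m j = 0 := by
  classical
  obtain ⟨N, hN⟩ : ∃ N, N = (A.card - 1) ^ 2 + 1 := ⟨_, rfl⟩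
  have hN0 : 0 < N := by omega
  choose r hr1 hr2 using fun j => root (hu j) (hu0 j) hN0
  let e : (Fin R →₀ ℕ) → ℂ → ℂ := fun m w => ∏ j, u j w ^ m j
  have heP : ∀ m, Pun (e m) := fun m => Pun.prod _ fun j _ => (hu j).pow _
  have heR : ∀ m, ∃ g : ℂ → ℂ, Pun g ∧ ∀ᶠ t in 𝓝[≠] (0 : ℂ), g t ^ N = e m (t ^ N) := by
    intro m
    refine ⟨fun t => ∏ j, r j t ^ m j, Pun.prod _ fun j _ => (hr1 j).pow _, ?_⟩
    have hall : ∀ᶠ t in 𝓝[≠] (0 : ℂ), ∀ j, r j t ^ N = u j (t ^ N) := by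
      rw [Filter.eventually_all]
      exact hr2
    filter_upwards [hall] with t ht
    show (∏ j, r j t ^ m j) ^ N = ∏ j, u j (t ^ N) ^ m j
    rw [← Finset.prod_pow]
    refine Finset.prod_congr rfl fun j _ => ?_
    rw [← pow_mul, mul_comm, pow_mul, ht j]
  let col : (Fin R →₀ ℕ) → ℤ := fun m => ∑ j, (m j : ℤ) * b j
  have hcol : ∀ α β, Nz (e α) → Nz (e β) → Gr (e α) (e β) → col α = col β := by
    intro α β hα hβ hg
    have h1 := hb _ (Mon_of_gr (f := u) hu (fun j => α j) (fun j => β j) hα hβ hg)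
    simp only [sub_mul, Finset.sum_sub_distrib] at h1
    show ∑ j, (α j : ℤ) * b j = ∑ j, (β j : ℤ) * b j
    linarith
  have hAN : (A.card - 1) ^ 2 ≤ N := by omega
  exact color_sums hN0 e heP heR col hcol A hAN c hc h v

theorem zpow_sum' {ι : Type} [DecidableEq ι] {t : ℂ} (ht : t ≠ 0) (s : Finset ι) (e : ι → ℤ) :
    t ^ (∑ j ∈ s, e j) = ∏ j ∈ s, t ^ e j := by
  induction s using Finset.induction_on with
  | empty => simp
  | insert a s ha ih => rw [Finset.sum_insert ha, Finset.prod_insert ha, zpow_add₀ ht, ih]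

/-- a finite sum of multiples of powers of `t` -/
theorem sum_shift {ι : Type} [DecidableEq ι] (A : Finset ι) (e : ι → ℤ) (C : ι → ℂ)
    (h : ∀ v : ℤ, ∑ m ∈ A.filter (fun m => e m = v), C m = 0) (t : ℂ) :
    ∑ m ∈ A, C m * t ^ e m = 0 := by
  rw [← Finset.sum_fiberwise_of_maps_to (t := A.image e) (g := e)
    (fun a ha => Finset.mem_image_of_mem e ha)]
  refine Finset.sum_eq_zero fun v _ => ?_
  have h1 : ∑ m ∈ A.filter (fun m => e m = v), C m * t ^ e m =
      ∑ m ∈ A.filter (fun m => e m = v), C m * t ^ v :=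
    Finset.sum_congr rfl fun m hm => by rw [(Finset.mem_filter.1 hm).2]
  rw [h1, ← Finset.sum_mul, h v, zero_mul]

/-- the coefficients of a Laurent polynomial which vanishes -/
theorem coeff_zero {ι : Type} [DecidableEq ι] (A : Finset ι) (e : ι → ℤ) (C : ι → ℂ)
    (h : ∀ t : ℂ, t ≠ 0 → ∑ m ∈ A, C m * t ^ e m = 0) (v : ℤ) :
    ∑ m ∈ A.filter (fun m => e m = v), C m = 0 := by
  classical
  obtain ⟨M, hM⟩ : ∃ M : ℕ, (∀ m ∈ A, 0 ≤ e m + M) ∧ 0 ≤ v + M := by
    refine ⟨∑ m ∈ A, (e m).natAbs + v.natAbs, fun m hm => ?_, by omega⟩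
    have := Finset.single_le_sum (f := fun m => (e m).natAbs) (fun _ _ => Nat.zero_le _) hm
    have h2 : (e m).natAbs ≤ ∑ m ∈ A, (e m).natAbs := this
    omega
  let P : Polynomial ℂ := ∑ m ∈ A, Polynomial.C (C m) * Polynomial.X ^ (e m + M).toNat
  have hP : P = 0 := by
    have h1 : ∀ t : ℂ, t ≠ 0 → P.eval t = 0 := by
      intro t ht
      simp only [P, Polynomial.eval_finsetSum, Polynomial.eval_mul, Polynomial.eval_C,
        Polynomial.eval_pow, Polynomial.eval_X]
      have h2 : ∑ m ∈ A, C m * t ^ (e m + M).toNat = (∑ m ∈ A, C m * t ^ e m) * t ^ M := by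
        rw [Finset.sum_mul]
        refine Finset.sum_congr rfl fun m hm => ?_
        rw [mul_assoc]
        congr 1
        rw [← zpow_natCast, Int.toNat_of_nonneg (hM.1 m hm), zpow_add₀ ht, zpow_natCast]
      rw [h2, h t ht, zero_mul]
    by_contra hne
    have h3 := Polynomial.finite_setOfPred_isRoot hne
    have h4 : (Set.univ : Set ℂ) ⊆ {0} ∪ {x | P.IsRoot x} := by
      intro x _
      by_cases hx : x = 0
      · exact Or.inl hx
      · exact Or.inr (h1 x hx)
    exact Set.infinite_univ (((Set.finite_singleton 0).union h3).subset h4)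
  have h5 := congrArg (fun P : Polynomial ℂ => P.coeff (v + M).toNat) hP
  simp only [P, Polynomial.finsetSum_coeff, Polynomial.coeff_C_mul, Polynomial.coeff_X_pow,
    Polynomial.coeff_zero] at h5
  rw [← h5, Finset.sum_filter]
  refine Finset.sum_congr rfl fun m hm => ?_
  by_cases hv : e m = v
  · rw [if_pos hv, if_pos (by rw [hv]), mul_one]
  · rw [if_neg hv, if_neg, mul_zero]
    intro h6
    apply hv
    have := hM.1 m hm
    have := hM.2
    omega

/-! ### polynomials in the zero free functions, with coefficients which are polynomials in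
meromorphic functions -/

variable {n : ℕ}

/-- the polynomial `G (∑ Y_(j,a) X_j)` -/
noncomputable def ex (G : MvPolynomial (Fin n) ℂ) :
    MvPolynomial (Fin R) (MvPolynomial (Fin R × Fin n) ℂ) :=
  aeval (fun a => ∑ j, C (X (j, a)) * X j) G

theorem ex_eval (G : MvPolynomial (Fin n) ℂ) (y : Fin R → ℂ) (Y : Fin R × Fin n → ℂ) :
    eval₂ (eval Y) y (ex G) = eval (fun a => ∑ j, Y (j, a) * y j) G := by
  unfold ex
  rw [aeval_def]
  have h1 := hom_eval₂ G (algebraMap ℂ (MvPolynomial (Fin R) (MvPolynomial (Fin R × Fin n) ℂ)))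
    (eval₂Hom (eval Y) y) (fun a => ∑ j, C (X (j, a)) * X j)
  rw [coe_eval₂Hom] at h1
  rw [h1]
  have h2 : (fun a => eval₂ (eval Y) y (∑ j, C (X (j, a)) * X j)) =
      fun a => ∑ j, Y (j, a) * y j := by
    funext a
    rw [← coe_eval₂Hom, map_sum]
    refine Finset.sum_congr rfl fun j _ => ?_
    rw [map_mul, coe_eval₂Hom, eval₂_C, eval₂_X, eval_X]
  have h3 : (eval₂Hom (eval Y) y).comp
      (algebraMap ℂ (MvPolynomial (Fin R) (MvPolynomial (Fin R × Fin n) ℂ))) = RingHom.id ℂ := by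
    refine RingHom.ext fun a => ?_
    rw [RingHom.comp_apply, MvPolynomial.algebraMap_apply, coe_eval₂Hom, eval₂_C,
      MvPolynomial.algebraMap_apply, eval_C]
    rfl
  rw [h3, h2]
  rfl

theorem mero_eval {σ : Type} [Fintype σ] (ρ : σ → ℂ → ℂ) (hρ : ∀ p, MeromorphicAt (ρ p) 0)
    (P : MvPolynomial σ ℂ) : MeromorphicAt (fun w => eval (fun p => ρ p w) P) 0 := by
  have h1 : (fun w => eval (fun p => ρ p w) P) =
      ∑ m ∈ P.support, fun w => P.coeff m * ∏ p, ρ p w ^ m p := by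
    funext w
    rw [Finset.sum_apply, eval_eq']
  rw [h1]
  refine MeromorphicAt.sum fun m _ => ?_
  refine (MeromorphicAt.const _ 0).fun_mul ?_
  have h2 : (fun w => ∏ p, ρ p w ^ m p) = ∏ p, fun w => ρ p w ^ m p := by
    funext w
    rw [Finset.prod_apply]
  rw [h2]
  exact MeromorphicAt.prod fun p _ => (hρ p).fun_pow _

/-- **One parameter groups.** -/
theorem key_t (u : Fin R → ℂ → ℂ) (hu : ∀ j, Pun (u j))
    (hu0 : ∀ j, ∀ᶠ w in 𝓝[≠] (0 : ℂ), u j w ≠ 0) (b : Fin R → ℤ)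
    (hb : ∀ γ ∈ Mon u, ∑ j, γ j * b j = 0) (ρ : Fin R × Fin n → ℂ → ℂ)
    (hρ : ∀ p, MeromorphicAt (ρ p) 0)
    (H : MvPolynomial (Fin R) (MvPolynomial (Fin R × Fin n) ℂ))
    (h : ∀ᶠ w in 𝓝[≠] (0 : ℂ), eval₂ (eval fun p => ρ p w) (fun j => u j w) H = 0) :
    ∀ᶠ w in 𝓝[≠] (0 : ℂ), ∀ t : ℂ, t ≠ 0 →
      eval₂ (eval fun p => ρ p w) (fun j => u j w * t ^ b j) H = 0 := by
  classical
  have h1 : ∀ v : ℤ, ∀ᶠ w in 𝓝[≠] (0 : ℂ),
      ∑ m ∈ H.support.filter (fun m => ∑ j, (m j : ℤ) * b j = v),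
        eval (fun p => ρ p w) (H.coeff m) * ∏ j, u j w ^ m j = 0 := by
    intro v
    refine key u hu hu0 b hb H.support (fun m w => eval (fun p => ρ p w) (H.coeff m))
      (fun m => mero_eval ρ hρ _) ?_ v
    filter_upwards [h] with w hw
    rw [eval₂_eq'] at hw
    exact hw
  have h2 : ∀ᶠ w in 𝓝[≠] (0 : ℂ), ∀ v ∈ H.support.image (fun m => ∑ j, (m j : ℤ) * b j),
      ∑ m ∈ H.support.filter (fun m => ∑ j, (m j : ℤ) * b j = v),
        eval (fun p => ρ p w) (H.coeff m) * ∏ j, u j w ^ m j = 0 := by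
    rw [Filter.eventually_all_finset]
    exact fun v _ => h1 v
  filter_upwards [h2] with w hw t ht
  rw [eval₂_eq']
  have h3 : ∑ m ∈ H.support, (eval fun p => ρ p w) (H.coeff m) * ∏ j, (u j w * t ^ b j) ^ m j =
      ∑ m ∈ H.support, ((eval fun p => ρ p w) (H.coeff m) * ∏ j, u j w ^ m j) *
        t ^ (∑ j, (m j : ℤ) * b j) := by
    refine Finset.sum_congr rfl fun m _ => ?_
    rw [mul_assoc]
    congr 1
    have h4 : t ^ (∑ j, (m j : ℤ) * b j) = ∏ j, (t ^ b j) ^ m j := by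
      rw [zpow_sum' ht]
      refine Finset.prod_congr rfl fun j _ => ?_
      rw [mul_comm, zpow_mul, zpow_natCast]
    rw [h4, ← Finset.prod_mul_distrib]
    exact Finset.prod_congr rfl fun j _ => by rw [mul_pow]
  rw [h3]
  refine sum_shift H.support (fun m => ∑ j, (m j : ℤ) * b j) _ (fun v => ?_) t
  by_cases hv : v ∈ H.support.image (fun m => ∑ j, (m j : ℤ) * b j)
  · exact hw v hv
  · refine Finset.sum_eq_zero fun m hm => ?_
    exfalso
    apply hv
    rw [Finset.mem_filter] at hm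
    exact Finset.mem_image.2 ⟨m, hm.1, hm.2⟩

end Pool.Agent.R849.UP
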