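import Mathlib
import Pool.Agent.W603.BP.Germ

set_option autoImplicit false

/-! # Sums of zero free functions near a puncture: definition -/

namespace Pool.Agent.R849.UP

open Filter Topology Pool.Agent.W603.BP

variable {N : ℕ}

/-- Near the puncture `0` the coordinates of `f` are finite sums `∑ u_j ρ_j` with functions `u_j`
without zeros, holomorphic near the puncture (usually with an essential singularity), and
coefficients `ρ_j` meromorphic at the puncture. -/
def UnitSum (f : ℂ → Fin (N + 1) → ℂ) : Prop :=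
  ∃ (r : ℕ) (u : Fin r → ℂ → ℂ) (ρ : Fin r → Fin (N + 1) → ℂ → ℂ),
    (∀ j, Pun (u j)) ∧ (∀ j, ∀ᶠ w in 𝓝[≠] (0 : ℂ), u j w ≠ 0) ∧
    (∀ j a, MeromorphicAt (ρ j a) 0) ∧
    ∀ᶠ w in 𝓝[≠] (0 : ℂ), ∀ a, f w a = ∑ j, u j w * ρ j a w

end Pool.Agent.R849.UP
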