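import Mathlib
import Pool.Agent.R849.UP.Main

set_option autoImplicit false

/-! # Entire curves whose coordinates are sums of zero free functions -/

namespace Pool.Agent.R849.UP

open MvPolynomial Metric Set Filter Topology Pool.Agent.W603.BP Pool.Agent.TH143

variable {N : ℕ} {ι : Type}

/-- entire curves -/
theorem entire_main (F : ι → MvPolynomial (Fin (N + 1)) ℂ) (hF : ∀ i, ∃ d, (F i).IsHomogeneous d)
    (Q : MvPolynomial (Fin (N + 1)) ℂ) {e : ℕ} (hQ : Q.IsHomogeneous e)
    (f : ℂ → Fin (N + 1) → ℂ) (hf : ∀ j, Differentiable ℂ (fun w => f w j))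
    (hne : ∀ w, f w ≠ 0) (hX : ∀ w, On F Q (f w)) (hU : UnitSum (fun w => f w⁻¹))
    (hnc : ∃ z w j k, f z j * f w k ≠ f z k * f w j) :
    ∃ R : ℝ, ∀ z0 : ℂ, R < ‖z0‖ → ∀ᶠ z in 𝓝[≠] z0, ∃ P, (∀ t, ∃ j, (P j).eval t ≠ 0) ∧
      IsGmCurve F Q P ∧ Through P (f z) := by
  by_cases hext : Extends (fun w => f w⁻¹)
  · -- a rational curve
    obtain ⟨u, p, hu, hfp⟩ := rational_of_extends f hf hne hext
    refine ⟨0, fun z0 _ => Eventually.of_forall fun z => ?_⟩
    let P : Fin (N + 1) → Polynomial ℂ := fun j =>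
      (p j).comp (Polynomial.C (z - 1) + Polynomial.X)
    have hPe : ∀ t j, (P j).eval t = (p j).eval (z - 1 + t) := fun t j => by
      simp only [P, Polynomial.eval_comp, Polynomial.eval_add, Polynomial.eval_C,
        Polynomial.eval_X]
    have hfu : ∀ x, f x = fun j => u x * (p j).eval x := fun x => funext (hfp x)
    have hpne : ∀ x, ∃ j, (p j).eval x ≠ 0 := by
      intro x
      obtain ⟨j, hj⟩ := Function.ne_iff.mp (hne x)
      refine ⟨j, fun h0 => hj ?_⟩
      rw [hfp, h0, mul_zero]
      rfl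
    have hpX : ∀ x, On F Q (fun j => (p j).eval x) := by
      intro x
      obtain ⟨h1, h2⟩ := hX x
      refine ⟨fun i => ?_, ?_⟩
      · obtain ⟨d, hd⟩ := hF i
        have h3 := h1 i
        rw [hfu, Pool.Agent.H159R3.Exp.eval_smul_homog hd] at h3
        exact (mul_eq_zero.mp h3).resolve_left (pow_ne_zero _ (hu x))
      · intro h0
        apply h2
        rw [hfu, Pool.Agent.H159R3.Exp.eval_smul_homog hQ, h0, mul_zero]
    refine ⟨P, fun t => ?_, ⟨fun t _ => ?_, fun t _ => ?_, ?_⟩, ?_⟩
    · obtain ⟨j, hj⟩ := hpne (z - 1 + t)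
      exact ⟨j, by rw [hPe]; exact hj⟩
    · obtain ⟨j, hj⟩ := hpne (z - 1 + t)
      exact ⟨j, by rw [hPe]; exact hj⟩
    · have := hpX (z - 1 + t)
      rw [show (fun j => (P j).eval t) = fun j => (p j).eval (z - 1 + t) from funext (hPe t)]
      exact this
    · -- nonconstant
      by_contra hcon
      push Not at hcon
      obtain ⟨x, y, j, k, hxy⟩ := hnc
      apply hxy
      -- the polynomial identity
      have h1 : ∀ s t : ℂ, (p j).eval s * (p k).eval t = (p k).eval s * (p j).eval t := by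
        have h2 : ∀ s : ℂ, s ≠ z - 1 → ∀ t : ℂ, t ≠ z - 1 →
            (p j).eval s * (p k).eval t = (p k).eval s * (p j).eval t := by
          intro s hs t ht
          have h3 := hcon (s - (z - 1)) (t - (z - 1)) (sub_ne_zero.mpr hs) (sub_ne_zero.mpr ht) j k
          rw [hPe, hPe, hPe, hPe] at h3
          simpa using h3
        have h4 : ∀ s : ℂ, s ≠ z - 1 → ∀ t : ℂ,
            (p j).eval s * (p k).eval t = (p k).eval s * (p j).eval t := by
          intro s hs
          have hc1 : Continuous fun t : ℂ => (p j).eval s * (p k).eval t := by fun_prop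
          have hc2 : Continuous fun t : ℂ => (p k).eval s * (p j).eval t := by fun_prop
          have hd : Dense {t : ℂ | t ≠ z - 1} := dense_compl_singleton (z - 1)
          intro t
          exact congrFun (hc1.ext_on hd hc2 (fun t ht => h2 s hs t ht)) t
        intro s t
        have hc1 : Continuous fun s : ℂ => (p j).eval s * (p k).eval t := by fun_prop
        have hc2 : Continuous fun s : ℂ => (p k).eval s * (p j).eval t := by fun_prop
        have hd : Dense {s : ℂ | s ≠ z - 1} := dense_compl_singleton (z - 1)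
        exact congrFun (hc1.ext_on hd hc2 (fun s hs => h4 s hs t)) s
      rw [hfp, hfp, hfp, hfp]
      linear_combination u x * u y * h1 x y
    · refine ⟨1, (u z)⁻¹, one_ne_zero, inv_ne_zero (hu z), fun j => ?_⟩
      rw [hPe, hfp]
      have := hu z
      field_simp
      simp
  · have hPB1 : ∀ w ∈ PB 1, w⁻¹ ≠ 0 := fun w hw => inv_ne_zero hw.1
    obtain ⟨δ, hδ, -, h⟩ := punct_main F hF Q hQ (fun w => f w⁻¹)
      (fun j w hw => ((hf j).analyticAt _).comp (analyticAt_inv hw.1))
      (fun w _ => hne _) (fun w _ => hX _) hU hext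
    refine ⟨δ⁻¹, fun z0 hz0 => ?_⟩
    have hz0' : z0⁻¹ ∈ PB δ := inv_mem_PB hδ hz0
    have hz0n : z0 ≠ 0 := by
      intro h0
      exact hz0'.1 (by rw [h0, inv_zero])
    have h1 := h z0⁻¹ hz0'
    have h2 : Tendsto (fun z : ℂ => z⁻¹) (𝓝[≠] z0) (𝓝[≠] z0⁻¹) := by
      apply tendsto_nhdsWithin_of_tendsto_nhds_of_eventually_within
      · exact (continuousAt_inv₀ hz0n).tendsto.mono_left nhdsWithin_le_nhds
      · filter_upwards [self_mem_nhdsWithin] with z hz h3
        exact hz (inv_injective h3)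
    filter_upwards [h2.eventually h1] with z hz
    obtain ⟨P, hP, hP1, hP2⟩ := hz
    refine ⟨P, hP, hP1, ?_⟩
    rw [inv_inv] at hP2
    exact hP2


/-- a morphism from the multiplicative group composed with `exp (1 / w)` -/
theorem unitSum_exp (P : Fin (N + 1) → Polynomial ℂ) :
    UnitSum (fun w => fun j => (P j).eval (Complex.exp w⁻¹)) := by
  classical
  obtain ⟨d, hd⟩ : ∃ d, ∀ j, (P j).natDegree < d := by
    refine ⟨Finset.univ.sup (fun j => (P j).natDegree) + 1, fun j => ?_⟩
    exact Nat.lt_succ_of_le (Finset.le_sup (f := fun j => (P j).natDegree) (Finset.mem_univ j))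
  refine ⟨d, fun i w => Complex.exp w⁻¹ ^ (i : ℕ), fun i j _ => (P j).coeff i, fun i => ?_,
    fun i => ?_, fun i j => MeromorphicAt.const _ 0, ?_⟩
  · filter_upwards [self_mem_nhdsWithin] with w hw
    exact ((analyticAt_inv hw).cexp).fun_pow _
  · exact Eventually.of_forall fun w => pow_ne_zero _ (Complex.exp_ne_zero _)
  · refine Eventually.of_forall fun w j => ?_
    change (P j).eval (Complex.exp w⁻¹) = ∑ k : Fin d, Complex.exp w⁻¹ ^ (k : ℕ) * (P j).coeff k
    rw [Polynomial.eval_eq_sum_range' (hd j), Finset.sum_range]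
    exact Finset.sum_congr rfl fun k _ => mul_comm _ _

end Pool.Agent.R849.UP
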